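import Mathlib

/-!
# Top-k ballots need not give a large matching in an integral domination graph

Four voters, thirteen candidates and ballots of length ten: no candidate has a perfect matching on
all four voters, while `4 * 10 / 13 > 3`.
-/

namespace Pool.Agent.Results.MP_5491e1_lc.NoLargeMatching

/-- A profile of strict linear orders of `n` voters on `m` candidates: `P i c` is the place of
candidate `c` in the order of voter `i`, the place `0` being the best one. -/
abbrev Profile (n m : ℕ) := Fin n → (Fin m ≃ Fin m)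

/-- Candidate `c` is the one that voter `i` ranks first. -/
def IsTop {n m : ℕ} (P : Profile n m) (i : Fin n) (c : Fin m) : Prop := (P i c : ℕ) = 0

/-- Candidate `c` is one of the `k` candidates that voter `i` ranks highest. -/
def Listed {n m : ℕ} (P : Profile n m) (k : ℕ) (i : Fin n) (c : Fin m) : Prop := (P i c : ℕ) < k

/-- The pair `(i, j)` is an edge of `G_k(a)`: either `top(j) = a`, or `a` is on the ballot of
voter `i` and voter `i` does not rank `top(j)` above `a`. -/
def Edge {n m : ℕ} (P : Profile n m) (k : ℕ) (a : Fin m) (i j : Fin n) : Prop :=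
  IsTop P j a ∨ (Listed P k i a ∧ ∀ t, IsTop P j t → ¬ P i t < P i a)

/-- There is a perfect matching on `S` in `G_k(a)`: a bijection of `S` onto itself all of whose
pairs are edges. -/
def HasPerfectMatching {n m : ℕ} (P : Profile n m) (k : ℕ) (a : Fin m) (S : Finset (Fin n)) :
    Prop :=
  ∃ M : Fin n → Fin n, Set.BijOn M (S : Set (Fin n)) (S : Set (Fin n)) ∧
    ∀ i ∈ S, Edge P k a i (M i)

/-- the places of the candidates for the four voters -/
def pos : Fin 4 → Fin 13 → Fin 13 :=
  ![![8, 0, 3, 5, 2, 10, 9, 1, 11, 6, 4, 7, 12],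
    ![4, 10, 0, 5, 6, 11, 1, 2, 12, 3, 9, 7, 8],
    ![10, 2, 11, 4, 9, 1, 12, 6, 0, 5, 7, 8, 3],
    ![10, 3, 11, 4, 12, 0, 9, 6, 2, 5, 7, 8, 1]]

/-- the candidates in the order of their places -/
def ord : Fin 4 → Fin 13 → Fin 13 :=
  ![![1, 7, 4, 2, 10, 3, 9, 11, 0, 6, 5, 8, 12],
    ![2, 6, 7, 9, 0, 3, 4, 11, 12, 10, 1, 5, 8],
    ![8, 5, 1, 12, 3, 9, 7, 10, 11, 4, 0, 2, 6],
    ![5, 12, 8, 1, 3, 9, 7, 10, 11, 6, 0, 2, 4]]

theorem ord_pos : ∀ i c, ord i (pos i c) = c := by decide
theorem pos_ord : ∀ i c, pos i (ord i c) = c := by decide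

/-- the profile -/
def P₀ : Profile 4 13 := fun i => ⟨pos i, ord i, ord_pos i, pos_ord i⟩

/-- the first choices -/
def tops : Fin 4 → Fin 13 := ![1, 2, 8, 5]

theorem isTop_iff : ∀ j t, IsTop P₀ j t ↔ t = tops j := by
  unfold IsTop P₀
  decide

/-- the edges, as a Boolean function -/
def edgeB (a : Fin 13) (i j : Fin 4) : Bool :=
  (tops j == a) || (decide ((pos i a : ℕ) < 10) && decide (pos i a ≤ pos i (tops j)))

theorem edge_imp {a : Fin 13} {i j : Fin 4} (h : Edge P₀ 10 a i j) : edgeB a i j = true := by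
  unfold edgeB
  rcases h with h | ⟨h1, h2⟩
  · rw [isTop_iff] at h
    simp [h]
  · have h3 := h2 (tops j) ((isTop_iff j _).2 rfl)
    have h4 : (pos i a : ℕ) < 10 := h1
    have h5 : pos i a ≤ pos i (tops j) := not_lt.1 h3
    simp [h4, h5]

theorem no_matching : ∀ (a : Fin 13) (x₀ x₁ x₂ x₃ : Fin 4),
    (edgeB a 0 x₀ && edgeB a 1 x₁ && edgeB a 2 x₂ && edgeB a 3 x₃ &&
      decide (x₀ ≠ x₁) && decide (x₀ ≠ x₂) && decide (x₀ ≠ x₃) && decide (x₁ ≠ x₂) &&
      decide (x₁ ≠ x₃) && decide (x₂ ≠ x₃)) = false := by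
  decide

/-- The answer to Q1 is negative: it is not true that for all numbers `n, m ≥ 1` of voters and
candidates, all `1 ≤ k ≤ m` and all profiles there are a candidate `a` and a set `S` of at least
`n k / m` voters such that `G_k(a)` has a perfect matching on `S`. -/
theorem result : ¬ ∀ n m k : ℕ, 1 ≤ n → 1 ≤ m → 1 ≤ k → k ≤ m → ∀ P : Profile n m,
    ∃ (a : Fin m) (S : Finset (Fin n)), ((n * k : ℕ) : ℚ) / (m : ℚ) ≤ (S.card : ℚ) ∧
      HasPerfectMatching P k a S := by
  intro h
  obtain ⟨a, S, hc, M, hM, he⟩ := h 4 13 10 (by norm_num) (by norm_num) (by norm_num)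
    (by norm_num) P₀
  have hcard : 4 ≤ S.card := by
    by_contra hlt
    have h3 : S.card ≤ 3 := by omega
    have h4 : (S.card : ℚ) ≤ 3 := by exact_mod_cast h3
    norm_num at hc
    linarith
  have hS : S = Finset.univ := by
    apply Finset.eq_univ_of_card
    have := S.card_le_univ
    simp only [Fintype.card_fin] at this ⊢
    omega
  subst hS
  have hinj : ∀ x y, M x = M y → x = y := fun x y hxy => hM.injOn (by simp) (by simp) hxy
  have e := fun i => edge_imp (he i (Finset.mem_univ i))
  have n01 : M 0 ≠ M 1 := fun hh => by have := hinj _ _ hh; exact absurd this (by decide)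
  have n02 : M 0 ≠ M 2 := fun hh => by have := hinj _ _ hh; exact absurd this (by decide)
  have n03 : M 0 ≠ M 3 := fun hh => by have := hinj _ _ hh; exact absurd this (by decide)
  have n12 : M 1 ≠ M 2 := fun hh => by have := hinj _ _ hh; exact absurd this (by decide)
  have n13 : M 1 ≠ M 3 := fun hh => by have := hinj _ _ hh; exact absurd this (by decide)
  have n23 : M 2 ≠ M 3 := fun hh => by have := hinj _ _ hh; exact absurd this (by decide)
  have key := no_matching a (M 0) (M 1) (M 2) (M 3)
  rw [e 0, e 1, e 2, e 3, decide_eq_true n01, decide_eq_true n02, decide_eq_true n03,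
    decide_eq_true n12, decide_eq_true n13, decide_eq_true n23] at key
  exact absurd key (by decide)

end Pool.Agent.Results.MP_5491e1_lc.NoLargeMatching
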